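import Pool.Agent.H16.TK.Stmt2

/-! MEA: the family of all replacements is measurable. -/

set_option autoImplicit false

open Set

namespace Pool.Agent.TK

/-- a function of the trace of `φ x` on a finite set is measurable -/
lemma mea_aux {X α : Type*} [MeasurableSpace X] [MeasurableSpace α] (φ : X → Set ℕ)
    (hφ : ∀ i, MeasurableSet {x | i ∈ φ x}) {I : Set ℕ} (hI : I.Finite) (G : Set ℕ → α) :
    Measurable (fun x => G (φ x ∩ I)) := by
  intro T _
  have h1 : ∀ s : Set ℕ, MeasurableSet {x | φ x ∩ I = s} := by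
    intro s
    by_cases hs : s ⊆ I
    · have h2 : {x | φ x ∩ I = s} = ⋂ i ∈ I, {x | i ∈ φ x ↔ i ∈ s} := by
        ext x
        simp only [mem_ofPred_eq, mem_iInter]
        constructor
        · intro h i hi
          rw [← h]
          exact ⟨fun h' => ⟨h', hi⟩, fun h' => h'.1⟩
        · intro h
          ext i
          constructor
          · rintro ⟨h3, h4⟩
            exact (h i h4).1 h3
          · intro h3
            exact ⟨(h i (hs h3)).2 h3, hs h3⟩
      rw [h2]
      refine hI.measurableSet_biInter fun i _ => ?_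
      by_cases hi : i ∈ s
      · have h3 : {x | i ∈ φ x ↔ i ∈ s} = {x | i ∈ φ x} := by
          ext x
          simp [hi]
        rw [h3]
        exact hφ i
      · have h3 : {x | i ∈ φ x ↔ i ∈ s} = {x | i ∈ φ x}ᶜ := by
          ext x
          simp [hi]
        rw [h3]
        exact (hφ i).compl
    · have h2 : {x | φ x ∩ I = s} = ∅ := by
        ext x
        simp only [mem_ofPred_eq, mem_empty_iff_false, iff_false]
        intro h
        exact hs (h ▸ inter_subset_right)
      rw [h2]
      exact MeasurableSet.empty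
  have h4 : (fun x => G (φ x ∩ I)) ⁻¹' T =
      ⋃ s ∈ {s : Set ℕ | s ⊆ I ∧ G s ∈ T}, {x | φ x ∩ I = s} := by
    ext x
    simp only [mem_preimage, mem_iUnion, mem_ofPred_eq, exists_prop]
    constructor
    · intro h
      exact ⟨φ x ∩ I, ⟨inter_subset_right, h⟩, rfl⟩
    · rintro ⟨s, ⟨-, h⟩, rfl⟩
      exact h
  rw [h4]
  exact (hI.finite_subsets.subset fun s hs => hs.1).measurableSet_biUnion fun s _ => h1 s

open Classical in
lemma mea_choose {α : Type*} {P P' : ℕ → Prop} (h : P = P') (F : ℕ → α) (b : α) :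
    (if h : ∃ i, P i then F h.choose else b) = (if h : ∃ i, P' i then F h.choose else b) := by
  subst h
  rfl

theorem pf_MEA {C : Type} [MeasurableSpace C] {c0 : C} (_ : RPF C c0) : MEA C c0 := by
  classical
  intro M a D R hRD φ hφ
  have hfin : ∀ u : ℕ, {i | u ∈ D i}.Finite := by
    intro u
    refine Set.Subsingleton.finite ?_
    intro i hi j hj
    by_contra hne
    exact Set.disjoint_left.1 (hRD.disj i (mem_univ i) j (mem_univ j) hne) hi hj
  refine Measurable.prodMk ?_ ?_
  · refine measurable_pi_iff.2 fun u => measurable_pi_iff.2 fun v => ?_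
    have hI : {i | u ∈ D i ∨ v ∈ D i}.Finite := (hfin u).union (hfin v)
    have h1 : (fun x => (repl c0 M a D R (φ x)).1 u v) =
        fun x => (repl c0 M a D R (φ x ∩ {i | u ∈ D i ∨ v ∈ D i})).1 u v := by
      funext x
      have hP : (fun i => i ∈ φ x ∧ (u ∈ D i ∨ v ∈ D i)) =
          fun i => i ∈ φ x ∩ {i | u ∈ D i ∨ v ∈ D i} ∧ (u ∈ D i ∨ v ∈ D i) := by
        funext i
        refine propext ⟨fun h => ⟨⟨h.1, h.2⟩, h.2⟩, fun h => ⟨h.1.1, h.2⟩⟩
      exact mea_choose hP (fun k => if u ∈ D k ∪ ms (a k) ∧ v ∈ D k ∪ ms (a k)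
        then (R k).1 u v else false) (M.1 u v)
    have h2 := mea_aux φ hφ hI (fun y => (repl c0 M a D R y).1 u v)
    rw [← h1] at h2
    exact h2
  · refine measurable_pi_iff.2 fun l => ?_
    have hI : {i | ∃ u ∈ l, u ∈ D i}.Finite := by
      have h2 : {i | ∃ u ∈ l, u ∈ D i} = ⋃ u ∈ {u | u ∈ l}, {i | u ∈ D i} := by
        ext i
        simp
      rw [h2]
      exact (List.finite_toSet l).biUnion fun u _ => hfin u
    have h1 : (fun x => (repl c0 M a D R (φ x)).2 l) =
        fun x => (repl c0 M a D R (φ x ∩ {i | ∃ u ∈ l, u ∈ D i})).2 l := by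
      funext x
      have hP : (fun i => i ∈ φ x ∧ ∃ u ∈ l, u ∈ D i) =
          fun i => i ∈ φ x ∩ {i | ∃ u ∈ l, u ∈ D i} ∧ ∃ u ∈ l, u ∈ D i := by
        funext i
        refine propext ⟨fun h => ⟨⟨h.1, h.2⟩, h.2⟩, fun h => ⟨h.1.1, h.2⟩⟩
      exact mea_choose hP (fun k => if ∀ u ∈ l, u ∈ D k ∪ ms (a k)
        then (R k).2 l else c0) (M.2 l)
    have h2 := mea_aux φ hφ hI (fun y => (repl c0 M a D R y).2 l)
    rw [← h1] at h2
    exact h2

end Pool.Agent.TK
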