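import Pool.Agent.H16.TK.Stmt2

/-! UNC: uncrossing of smallest admissible separators. -/

set_option autoImplicit false

open Set

namespace Pool.Agent.TK

theorem pf_UNC {C : Type} {c0 : C} : UNC C c0 := by
  intro M hM w hw P A B1 B2 hA h1 h2 hmin hcard
  obtain ⟨f1, s1, d1⟩ := h1
  obtain ⟨f2, s2, d2⟩ := h2
  have hAB1 : (A ∪ B1).Finite := hA.union f1
  have hAB2 : (A ∪ B2).Finite := hA.union f2
  have hCc : IsCp M A (w A) := hw.1 A hA
  have hU1c : IsCp M (A ∪ B1) (w (A ∪ B1)) := hw.1 _ hAB1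
  have hU2c : IsCp M (A ∪ B2) (w (A ∪ B2)) := hw.1 _ hAB2
  have hU1C : w (A ∪ B1) ⊆ w A := hw.2 _ _ hAB1 subset_union_left
  have hU2C : w (A ∪ B2) ⊆ w A := hw.2 _ _ hAB2 subset_union_left
  have hCA : ∀ x, x ∈ w A → x ∉ A := fun x hx hx' => Set.disjoint_left.1 hCc.disj hx hx'
  have hf12 : (A ∪ B1 ∪ B2).Finite := hAB1.union f2
  have hI1 : w (A ∪ B1 ∪ B2) ⊆ w (A ∪ B1) := hw.2 _ _ hf12 subset_union_left
  have hI2 : w (A ∪ B1 ∪ B2) ⊆ w (A ∪ B2) := hw.2 _ _ hf12 (by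
    intro x hx
    rcases hx with hx | hx
    · exact Or.inl (Or.inl hx)
    · exact Or.inr hx)
  have hIc : IsCp M (A ∪ B1 ∪ B2) (w (A ∪ B1 ∪ B2)) := hw.1 _ hf12
  obtain ⟨i, hi⟩ := hIc.nonempty
  have hN1 : Nb M (w (A ∪ B1)) ⊆ A ∪ B1 := hU1c.nb hM
  have hN2 : Nb M (w (A ∪ B2)) ⊆ A ∪ B2 := hU2c.nb hM
  have hNV : ∀ u, u ∈ Nb M (w (A ∪ B1) ∪ w (A ∪ B2)) →
      u ∈ Nb M (w (A ∪ B1)) ∨ u ∈ Nb M (w (A ∪ B2)) := by
    rintro u ⟨hu, s, hs, hE⟩
    rcases hs with hs | hs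
    · exact Or.inl ⟨fun h => hu (Or.inl h), s, hs, hE⟩
    · exact Or.inr ⟨fun h => hu (Or.inr h), s, hs, hE⟩
  -- the union
  set V := w (A ∪ B1) ∪ w (A ∪ B2) with hV
  set B3 := Nb M V ∩ w A with hB3
  have hVcd : Cd M V := (hU1c.cd hM).union (hU2c.cd hM) (hI1 hi) (hI2 hi)
  have hVC : V ⊆ w A := union_subset hU1C hU2C
  have hB3s : B3 ⊆ B1 ∪ B2 := by
    rintro u ⟨hu, huC⟩
    rcases hNV u hu with h | h
    · rcases hN1 h with h | h
      · exact absurd h (hCA u huC)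
      · exact Or.inl h
    · rcases hN2 h with h | h
      · exact absurd h (hCA u huC)
      · exact Or.inr h
  have hB3f : B3.Finite := (f1.union f2).subset hB3s
  have hVcp : IsCp M (A ∪ B3) V := by
    refine (isCp_iff hM).2 ⟨hVcd, ?_, ?_⟩
    · rw [Set.disjoint_left]
      intro x hx hx'
      rcases hx' with hx' | hx'
      · exact hCA x (hVC hx) hx'
      · exact hx'.1.1 hx
    · intro u hu
      by_cases huA : u ∈ A
      · exact Or.inl huA
      · refine Or.inr ⟨hu, ?_⟩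
        rcases hNV u hu with h | h
        · rcases hN1 h with h | h
          · exact absurd h huA
          · exact s1 h
        · rcases hN2 h with h | h
          · exact absurd h huA
          · exact s2 h
  have hVw : w (A ∪ B3) = V := by
    have hf3 : (A ∪ B1 ∪ B2 ∪ B3).Finite := hf12.union hB3f
    obtain ⟨j, hj⟩ := (hw.1 _ hf3).nonempty
    refine (hw.1 _ (hA.union hB3f)).eq_of_inter hM hVcp (x := j) ?_ ?_
    · exact hw.2 _ _ hf3 (by
        intro x hx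
        rcases hx with hx | hx
        · exact Or.inl (Or.inl (Or.inl hx))
        · exact Or.inr hx) hj
    · exact Or.inl (hI1 (hw.2 _ _ hf3 subset_union_left hj))
  have hAdm3 : Adm M w P A B3 := by
    refine ⟨hB3f, inter_subset_right, ?_⟩
    rw [hVw, Set.disjoint_left]
    intro u hu hu'
    rcases hNV u hu with h | h
    · exact Set.disjoint_left.1 d1 h hu'
    · exact Set.disjoint_left.1 d2 h hu'
  -- the component of the intersection
  set Z := cp M (w (A ∪ B1) ∩ w (A ∪ B2))ᶜ i with hZ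
  set B4 := Nb M Z ∩ w A with hB4
  have hiZ : i ∉ (w (A ∪ B1) ∩ w (A ∪ B2))ᶜ := fun h => h ⟨hI1 hi, hI2 hi⟩
  have hZcp0 : IsCp M (w (A ∪ B1) ∩ w (A ∪ B2))ᶜ Z := isCp_cp hiZ
  have hZs : Z ⊆ w (A ∪ B1) ∩ w (A ∪ B2) := by
    intro x hx
    by_contra h
    exact Set.disjoint_left.1 hZcp0.disj hx h
  have hNZ : ∀ u, u ∈ Nb M Z → u ∉ w (A ∪ B1) ∩ w (A ∪ B2) := fun u hu => hZcp0.nb hM hu
  have hNZ12 : ∀ u, u ∈ Nb M Z → u ∈ Nb M (w (A ∪ B1)) ∨ u ∈ Nb M (w (A ∪ B2)) := by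
    rintro u hu
    have h := hNZ u hu
    obtain ⟨hu, s, hs, hE⟩ := hu
    by_cases h1 : u ∈ w (A ∪ B1)
    · exact Or.inr ⟨fun h2 => h ⟨h1, h2⟩, s, (hZs hs).2, hE⟩
    · exact Or.inl ⟨h1, s, (hZs hs).1, hE⟩
  have hB4s : B4 ⊆ B1 ∪ B2 := by
    rintro u ⟨hu, huC⟩
    rcases hNZ12 u hu with h | h
    · rcases hN1 h with h | h
      · exact absurd h (hCA u huC)
      · exact Or.inl h
    · rcases hN2 h with h | h
      · exact absurd h (hCA u huC)
      · exact Or.inr h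
  have hB4f : B4.Finite := (f1.union f2).subset hB4s
  have hZC : Z ⊆ w A := fun x hx => hU1C (hZs hx).1
  have hZcp : IsCp M (A ∪ B4) Z := by
    refine (isCp_iff hM).2 ⟨hZcp0.cd hM, ?_, ?_⟩
    · rw [Set.disjoint_left]
      intro x hx hx'
      rcases hx' with hx' | hx'
      · exact hCA x (hZC hx) hx'
      · exact hx'.1.1 hx
    · intro u hu
      by_cases huA : u ∈ A
      · exact Or.inl huA
      · refine Or.inr ⟨hu, ?_⟩
        rcases hNZ12 u hu with h | h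
        · rcases hN1 h with h | h
          · exact absurd h huA
          · exact s1 h
        · rcases hN2 h with h | h
          · exact absurd h huA
          · exact s2 h
  have hIZ : w (A ∪ B1 ∪ B2) ⊆ Z := by
    refine (hIc.cd hM).subset hM hZcp0 ?_ hi (self_mem_cp hiZ)
    rw [Set.disjoint_left]
    intro x hx hx'
    exact hx' ⟨hI1 hx, hI2 hx⟩
  have hZw : w (A ∪ B4) = Z := by
    have hf4 : (A ∪ B1 ∪ B2 ∪ B4).Finite := hf12.union hB4f
    obtain ⟨j, hj⟩ := (hw.1 _ hf4).nonempty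
    refine (hw.1 _ (hA.union hB4f)).eq_of_inter hM hZcp (x := j) ?_ ?_
    · exact hw.2 _ _ hf4 (by
        intro x hx
        rcases hx with hx | hx
        · exact Or.inl (Or.inl (Or.inl hx))
        · exact Or.inr hx) hj
    · exact hIZ (hw.2 _ _ hf4 subset_union_left hj)
  have hAdm4 : Adm M w P A B4 := by
    refine ⟨hB4f, inter_subset_right, ?_⟩
    rw [hZw, Set.disjoint_left]
    rintro u ⟨hu, s, hs, hE⟩ hu'
    have hu1 : u ∈ Nb M (w (A ∪ B1)) := ⟨fun h => hu'.1.1 (hU1C h), s, (hZs hs).1, hE⟩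
    exact Set.disjoint_left.1 d1 hu1 hu'
  -- counting
  have hi12 : B3 ∩ B4 ⊆ B1 ∩ B2 := by
    rintro u ⟨⟨hu, huC⟩, ⟨hu4, -⟩⟩
    obtain ⟨-, s, hs, hE⟩ := hu4
    have hn1 : u ∉ w (A ∪ B1) := fun h => hu.1 (Or.inl h)
    have hn2 : u ∉ w (A ∪ B2) := fun h => hu.1 (Or.inr h)
    constructor
    · rcases hN1 (⟨hn1, s, (hZs hs).1, hE⟩ : u ∈ Nb M (w (A ∪ B1))) with h | h
      · exact absurd h (hCA u huC)
      · exact h
    · rcases hN2 (⟨hn2, s, (hZs hs).2, hE⟩ : u ∈ Nb M (w (A ∪ B2))) with h | h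
      · exact absurd h (hCA u huC)
      · exact h
  have c1 : (B3 ∪ B4).ncard + (B3 ∩ B4).ncard = B3.ncard + B4.ncard :=
    Set.ncard_union_add_ncard_inter B3 B4 hB3f hB4f
  have c2 : (B1 ∪ B2).ncard + (B1 ∩ B2).ncard = B1.ncard + B2.ncard :=
    Set.ncard_union_add_ncard_inter B1 B2 f1 f2
  have c3 : (B3 ∪ B4).ncard ≤ (B1 ∪ B2).ncard :=
    Set.ncard_le_ncard (union_subset hB3s hB4s) (f1.union f2)
  have c4 : (B3 ∩ B4).ncard ≤ (B1 ∩ B2).ncard :=
    Set.ncard_le_ncard hi12 (f1.subset inter_subset_left)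
  have c5 := hmin B4 hAdm4
  have c6 := hmin B3 hAdm3
  exact ⟨B3, hAdm3, by omega, hVw⟩

end Pool.Agent.TK
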